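import Pool.Agent.helper6.EV.Spec

/-! JB: `∫ π(e^u) u^k e^(-su) du` as a sum over primes. -/

set_option autoImplicit false

namespace Pool.Agent.EV

open N1f72dd46 Filter MeasureTheory Complex Metric Pool.Agent.helper6.LD

theorem JB_norm (s : ℂ) (hs : s.re = 4) (k : ℕ) (u : ℝ) (hu : 0 ≤ u) :
    ‖(u : ℂ) ^ k * Complex.exp (-s * u)‖ = u ^ k * Real.exp (-(4 * u)) := by
  rw [norm_mul, norm_pow, Complex.norm_real, Real.norm_of_nonneg hu, Complex.norm_exp]
  have : (-s * (u : ℂ)).re = -(4 * u) := by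
    rw [Complex.re_mul_ofReal, Complex.neg_re, hs]
    ring
  rw [this]

theorem JB_tend (s : ℂ) (hs : s.re = 4) (k : ℕ) :
    Tendsto (fun u : ℝ => (u : ℂ) ^ k * Complex.exp (-s * u)) atTop (nhds 0) := by
  rw [tendsto_zero_iff_norm_tendsto_zero]
  have h := Real.tendsto_pow_mul_exp_neg_atTop_nhds_zero k
  refine tendsto_of_tendsto_of_tendsto_of_le_of_le' tendsto_const_nhds h ?_ ?_
  · exact Eventually.of_forall fun u => norm_nonneg _
  · filter_upwards [eventually_ge_atTop (0 : ℝ)] with u hu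
    rw [JB_norm s hs k u hu]
    apply mul_le_mul_of_nonneg_left _ (pow_nonneg hu k)
    apply Real.exp_le_exp.2
    linarith

theorem JB_cont (s : ℂ) (k : ℕ) : Continuous (fun u : ℝ => (u : ℂ) ^ k * Complex.exp (-s * u)) := by
  fun_prop

theorem JB_real_int (k : ℕ) : IntegrableOn (fun u : ℝ => u ^ k * Real.exp (-u)) (Set.Ioi 0) := by
  have h := Real.GammaIntegral_convergent (s := (k : ℝ) + 1) (by positivity)
  refine h.congr_fun ?_ measurableSet_Ioi
  intro u hu
  simp only [add_sub_cancel_right, Real.rpow_natCast]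
  ring

theorem JB_int (s : ℂ) (hs : s.re = 4) (k : ℕ) :
    IntegrableOn (fun u : ℝ => (u : ℂ) ^ k * Complex.exp (-s * u)) (Set.Ioi 0) := by
  refine Integrable.mono' (JB_real_int k) (JB_cont s k).aestronglyMeasurable ?_
  filter_upwards [ae_restrict_mem measurableSet_Ioi] with u hu
  have hu0 : 0 ≤ u := le_of_lt hu
  rw [JB_norm s hs k u hu0]
  apply mul_le_mul_of_nonneg_left _ (pow_nonneg hu0 k)
  apply Real.exp_le_exp.2
  linarith

theorem JB_int' (s : ℂ) (hs : s.re = 4) (k : ℕ) (L : ℝ) (hL : 0 ≤ L) :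
    IntegrableOn (fun u : ℝ => (u : ℂ) ^ k * Complex.exp (-s * u)) (Set.Ioi L) :=
  (JB_int s hs k).mono_set (Set.Ioi_subset_Ioi hL)

theorem JB_exp_deriv (s : ℂ) (u : ℝ) :
    HasDerivAt (fun u : ℝ => Complex.exp (-s * u)) (-s * Complex.exp (-s * u)) u := by
  have h1 : HasDerivAt (fun u : ℝ => (u : ℂ)) 1 u := Complex.ofRealCLM.hasDerivAt
  have h2 : HasDerivAt (fun u : ℝ => -s * (u : ℂ)) (-s * 1) u := h1.const_mul (-s)
  have h3 := h2.cexp
  rw [mul_one] at h3
  rw [mul_comm (-s)]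
  exact h3

theorem JB_zero (s : ℂ) (hs : s.re = 4) (L : ℝ) (hL : 0 ≤ L) :
    s * ∫ u in Set.Ioi L, (u : ℂ) ^ 0 * Complex.exp (-s * u) = Complex.exp (-s * L) := by
  have hd : ∀ x ∈ Set.Ioi L, HasDerivAt (fun u : ℝ => -Complex.exp (-s * u))
      (s * ((x : ℂ) ^ 0 * Complex.exp (-s * x))) x := by
    intro x _
    have h := (JB_exp_deriv s x).neg
    rw [pow_zero, one_mul]
    rw [neg_mul, neg_neg] at h
    exact h
  have ht : Tendsto (fun u : ℝ => -Complex.exp (-s * u)) atTop (nhds 0) := by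
    have h := (JB_tend s hs 0).neg
    simpa using h
  have hc : ContinuousWithinAt (fun u : ℝ => -Complex.exp (-s * u)) (Set.Ici L) L := by
    apply Continuous.continuousWithinAt
    fun_prop
  have h := integral_Ioi_of_hasDerivAt_of_tendsto hc hd ((JB_int' s hs 0 L hL).const_mul s) ht
  rw [integral_const_mul] at h
  rw [h]
  ring

theorem JB_succ (s : ℂ) (hs : s.re = 4) (k : ℕ) (L : ℝ) (hL : 0 ≤ L) :
    s * (∫ u in Set.Ioi L, (u : ℂ) ^ (k + 1) * Complex.exp (-s * u)) =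
      (L : ℂ) ^ (k + 1) * Complex.exp (-s * L) +
        (k + 1) * ∫ u in Set.Ioi L, (u : ℂ) ^ k * Complex.exp (-s * u) := by
  have hd : ∀ x ∈ Set.Ioi L, HasDerivAt (fun u : ℝ => -((u : ℂ) ^ (k + 1) * Complex.exp (-s * u)))
      (s * ((x : ℂ) ^ (k + 1) * Complex.exp (-s * x)) -
        (k + 1) * ((x : ℂ) ^ k * Complex.exp (-s * x))) x := by
    intro x _
    have h1 : HasDerivAt (fun u : ℝ => (u : ℂ)) 1 x := Complex.ofRealCLM.hasDerivAt
    have h2 : HasDerivAt (fun u : ℝ => (u : ℂ) ^ (k + 1))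
        (((k + 1 : ℕ) : ℂ) * (x : ℂ) ^ k * 1) x := by
      simpa using h1.fun_pow (k + 1)
    have h3 := (h2.mul (JB_exp_deriv s x)).neg
    have e : -((((k + 1 : ℕ) : ℂ) * (x : ℂ) ^ k * 1) * Complex.exp (-s * x) +
        (x : ℂ) ^ (k + 1) * (-s * Complex.exp (-s * x))) =
        s * ((x : ℂ) ^ (k + 1) * Complex.exp (-s * x)) -
        (k + 1) * ((x : ℂ) ^ k * Complex.exp (-s * x)) := by
      push_cast
      ring
    rw [← e]
    exact h3
  have ht : Tendsto (fun u : ℝ => -((u : ℂ) ^ (k + 1) * Complex.exp (-s * u))) atTop (nhds 0) := by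
    have h := (JB_tend s hs (k + 1)).neg
    simpa using h
  have hc : ContinuousWithinAt (fun u : ℝ => -((u : ℂ) ^ (k + 1) * Complex.exp (-s * u)))
      (Set.Ici L) L := by
    apply Continuous.continuousWithinAt
    fun_prop
  have i1 : IntegrableOn (fun u : ℝ => s * ((u : ℂ) ^ (k + 1) * Complex.exp (-s * u))) (Set.Ioi L) :=
    (JB_int' s hs (k + 1) L hL).const_mul s
  have i2 : IntegrableOn (fun u : ℝ => ((k : ℂ) + 1) * ((u : ℂ) ^ k * Complex.exp (-s * u)))
      (Set.Ioi L) := (JB_int' s hs k L hL).const_mul _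
  have h := integral_Ioi_of_hasDerivAt_of_tendsto hc hd (i1.sub i2) ht
  rw [integral_sub i1 i2, integral_const_mul, integral_const_mul] at h
  linear_combination h

theorem JB_formula (s : ℂ) (hs : s.re = 4) (k : ℕ) (L : ℝ) (hL : 0 ≤ L) :
    ∫ u in Set.Ioi L, (u : ℂ) ^ k * Complex.exp (-s * u) =
      (k.factorial : ℂ) * ∑ i ∈ Finset.range (k + 1), (s ^ (i + 1))⁻¹ *
        ((L : ℂ) ^ (k - i) / ((k - i).factorial : ℂ) * Complex.exp (-s * L)) := by
  have hs0 : s ≠ 0 := by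
    intro h
    rw [h] at hs
    norm_num at hs
  induction k with
  | zero =>
    have h := JB_zero s hs L hL
    have : ∫ u in Set.Ioi L, (u : ℂ) ^ 0 * Complex.exp (-s * u) = s⁻¹ * Complex.exp (-s * L) := by
      rw [← h]
      field_simp
    rw [this]
    simp
  | succ k ih =>
    have h := JB_succ s hs k L hL
    have h1 : ∫ u in Set.Ioi L, (u : ℂ) ^ (k + 1) * Complex.exp (-s * u) =
        s⁻¹ * ((L : ℂ) ^ (k + 1) * Complex.exp (-s * L) +
        (k + 1) * ∫ u in Set.Ioi L, (u : ℂ) ^ k * Complex.exp (-s * u)) := by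
      rw [← h]
      field_simp
    rw [h1, ih, Finset.sum_range_succ' _ (k + 1)]
    have hf : ((k + 1).factorial : ℂ) = (k + 1) * (k.factorial : ℂ) := by
      rw [Nat.factorial_succ]
      push_cast
      ring
    have hf0 : ((k + 1).factorial : ℂ) ≠ 0 := by
      exact_mod_cast Nat.factorial_ne_zero (k + 1)
    have e1 : ∀ i : ℕ, (s ^ (i + 1 + 1))⁻¹ *
        ((L : ℂ) ^ (k + 1 - (i + 1)) / ((k + 1 - (i + 1)).factorial : ℂ) * Complex.exp (-s * L)) =
        s⁻¹ * ((s ^ (i + 1))⁻¹ *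
        ((L : ℂ) ^ (k - i) / ((k - i).factorial : ℂ) * Complex.exp (-s * L))) := by
      intro i
      rw [Nat.add_sub_add_right, pow_succ s (i + 1), mul_inv]
      ring
    rw [Finset.sum_congr rfl (fun i _ => e1 i), ← Finset.mul_sum]
    rw [mul_add ((k + 1).factorial : ℂ)]
    have e2 : ((k + 1).factorial : ℂ) * ((s ^ (0 + 1))⁻¹ *
        ((L : ℂ) ^ (k + 1 - 0) / ((k + 1 - 0).factorial : ℂ) * Complex.exp (-s * L))) =
        s⁻¹ * ((L : ℂ) ^ (k + 1) * Complex.exp (-s * L)) := by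
      rw [Nat.sub_zero, zero_add, pow_one]
      field_simp
    rw [e2, hf]
    ring

/-- the term of the prime `p` -/
noncomputable def JB_F (s : ℂ) (k : ℕ) (p : Nat.Primes) (u : ℝ) : ℂ :=
  (Set.Ici (Real.log (p : ℕ))).indicator (fun u : ℝ => (u : ℂ) ^ k * Complex.exp (-s * u)) u

theorem JB_log_pos (p : Nat.Primes) : 0 < Real.log (p : ℕ) := by
  apply Real.log_pos
  exact_mod_cast p.2.one_lt

theorem JB_pe (u : ℝ) : ((pe u : ℝ) : ℂ) =
    ∑' p : Nat.Primes, (if Real.log ((p : ℕ) : ℝ) ≤ u then (1 : ℂ) else 0) := by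
  have h0 : ∑' p : Nat.Primes, (if Real.log ((p : ℕ) : ℝ) ≤ u then (1 : ℂ) else 0) =
      ∑' n : ℕ, Set.indicator {n : ℕ | n.Prime}
        (fun n : ℕ => if Real.log (n : ℝ) ≤ u then (1 : ℂ) else 0) n :=
    tsum_subtype {n : ℕ | n.Prime} (fun n : ℕ => if Real.log (n : ℝ) ≤ u then (1 : ℂ) else 0)
  rw [h0]
  have h1 : ∀ n ∉ Finset.range (⌊Real.exp u⌋₊ + 1), Set.indicator {n : ℕ | n.Prime}
        (fun n : ℕ => if Real.log (n : ℝ) ≤ u then (1 : ℂ) else 0) n = 0 := by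
    intro n hn
    rw [Finset.mem_range, not_lt] at hn
    apply Set.indicator_apply_eq_zero.2
    intro hp
    rw [if_neg]
    intro hle
    have hnpos : (0 : ℝ) < n := by exact_mod_cast (Nat.Prime.pos hp)
    have h2 : (n : ℝ) ≤ Real.exp u := (Real.log_le_iff_le_exp hnpos).1 hle
    have h3 : n ≤ ⌊Real.exp u⌋₊ := Nat.le_floor h2
    omega
  rw [tsum_eq_sum h1]
  unfold pe pc Nat.primeCounting Nat.primeCounting'
  rw [Nat.count_eq_card_filter_range, Finset.card_filter]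
  push_cast
  apply Finset.sum_congr rfl
  intro n hn
  rw [Finset.mem_range] at hn
  by_cases hp : n.Prime
  · have hle : Real.log (n : ℝ) ≤ u := by
      have hnpos : (0 : ℝ) < n := by exact_mod_cast hp.pos
      rw [Real.log_le_iff_le_exp hnpos]
      have h3 : n ≤ ⌊Real.exp u⌋₊ := by omega
      calc (n : ℝ) ≤ (⌊Real.exp u⌋₊ : ℝ) := by exact_mod_cast h3
        _ ≤ Real.exp u := Nat.floor_le (Real.exp_pos u).le
    rw [if_pos hp, Set.indicator_of_mem (by exact hp), if_pos hle]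
    norm_num
  · rw [if_neg hp, Set.indicator_of_notMem (by exact hp)]
    norm_num

theorem JB_sumF (s : ℂ) (k : ℕ) (u : ℝ) :
    ∑' p : Nat.Primes, JB_F s k p u =
      (pe (u + 0) : ℂ) * (u : ℂ) ^ k * Complex.exp (-s * u) := by
  rw [add_zero, JB_pe u, mul_assoc, ← tsum_mul_right]
  apply tsum_congr
  intro p
  unfold JB_F
  by_cases h : Real.log ((p : ℕ) : ℝ) ≤ u
  · rw [Set.indicator_of_mem (by exact h), if_pos h, one_mul]
  · rw [Set.indicator_of_notMem (by exact h), if_neg h, zero_mul]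

theorem JB_intF (s : ℂ) (hs : s.re = 4) (k : ℕ) (p : Nat.Primes) :
    Integrable (JB_F s k p) (volume.restrict (Set.Ioi 0)) :=
  (JB_int s hs k).indicator measurableSet_Ici

theorem JB_valF (s : ℂ) (hs : s.re = 4) (k : ℕ) (p : Nat.Primes) :
    ∫ u in Set.Ioi (0 : ℝ), JB_F s k p u =
      (k.factorial : ℂ) * ∑ i ∈ Finset.range (k + 1), (s ^ (i + 1))⁻¹ *
        ((Real.log (p : ℕ) : ℂ) ^ (k - i) / ((k - i).factorial : ℂ) * ((p : ℕ) : ℂ) ^ (-s)) := by
  unfold JB_F
  rw [setIntegral_indicator measurableSet_Ici]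
  have hset : Set.Ioi (0 : ℝ) ∩ Set.Ici (Real.log (p : ℕ)) = Set.Ici (Real.log (p : ℕ)) := by
    apply Set.inter_eq_right.2
    intro x hx
    exact lt_of_lt_of_le (JB_log_pos p) hx
  rw [hset, integral_Ici_eq_integral_Ioi, JB_formula s hs k _ (JB_log_pos p).le]
  have hexp : Complex.exp (-s * (Real.log (p : ℕ) : ℂ)) = ((p : ℕ) : ℂ) ^ (-s) := by
    have hp0 : ((p : ℕ) : ℂ) ≠ 0 := by exact_mod_cast p.2.ne_zero
    rw [Complex.cpow_def_of_ne_zero hp0, ← Complex.natCast_log, mul_comm]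
  rw [hexp]

theorem JB_prime_summable : Summable (fun p : Nat.Primes => (((p : ℕ) : ℝ) ^ 2)⁻¹) := by
  have h : Summable (fun n : ℕ => ((n : ℝ) ^ 2)⁻¹) := Real.summable_nat_pow_inv.2 (by norm_num)
  exact h.comp_injective Subtype.val_injective

theorem JB_normsum (s : ℂ) (hs : s.re = 4) (k : ℕ) :
    Summable (fun p : Nat.Primes => ∫ u in Set.Ioi (0 : ℝ), ‖JB_F s k p u‖) := by
  refine Summable.of_nonneg_of_le (fun p => integral_nonneg fun u => norm_nonneg _) ?_
    (JB_prime_summable.mul_left (∫ u in Set.Ioi (0 : ℝ), u ^ k * Real.exp (-u)))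
  intro p
  rw [mul_comm, ← integral_const_mul]
  have hL := JB_log_pos p
  have hp0 : (0 : ℝ) < (p : ℕ) := by exact_mod_cast p.2.pos
  refine integral_mono_ae ((JB_intF s hs k p).norm) ((JB_real_int k).const_mul _) ?_
  filter_upwards [ae_restrict_mem measurableSet_Ioi] with u hu
  have hu0 : 0 ≤ u := le_of_lt hu
  unfold JB_F
  by_cases h : Real.log ((p : ℕ) : ℝ) ≤ u
  · rw [Set.indicator_of_mem (by exact h), JB_norm s hs k u hu0]
    have e1 : Real.exp (-(4 * u)) = Real.exp (-(2 * u)) * Real.exp (-u) * Real.exp (-u) := by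
      rw [← Real.exp_add, ← Real.exp_add]
      congr 1
      ring
    have e2 : Real.exp (-(2 * u)) ≤ (((p : ℕ) : ℝ) ^ 2)⁻¹ := by
      have h3 : (((p : ℕ) : ℝ) ^ 2)⁻¹ = Real.exp (-(2 * Real.log (p : ℕ))) := by
        rw [Real.exp_neg]
        congr 1
        rw [two_mul, Real.exp_add, Real.exp_log hp0]
        ring
      rw [h3]
      apply Real.exp_le_exp.2
      linarith
    have e3 : Real.exp (-u) ≤ 1 := Real.exp_le_one_iff.2 (by linarith)
    have e4 : 0 < Real.exp (-u) := Real.exp_pos _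
    have e5 : 0 < Real.exp (-(2 * u)) := Real.exp_pos _
    rw [e1]
    have huk : 0 ≤ u ^ k := pow_nonneg hu0 k
    calc u ^ k * (Real.exp (-(2 * u)) * Real.exp (-u) * Real.exp (-u))
        = (Real.exp (-(2 * u)) * Real.exp (-u)) * (u ^ k * Real.exp (-u)) := by ring
      _ ≤ ((((p : ℕ) : ℝ) ^ 2)⁻¹ * 1) * (u ^ k * Real.exp (-u)) := by
          apply mul_le_mul_of_nonneg_right _ (by positivity)
          exact mul_le_mul e2 e3 e4.le (by positivity)
      _ = (((p : ℕ) : ℝ) ^ 2)⁻¹ * (u ^ k * Real.exp (-u)) := by ring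
  · rw [Set.indicator_of_notMem (by exact h), norm_zero]
    positivity

theorem JB_termsum (s : ℂ) (hs : s.re = 4) (m : ℕ) :
    Summable (fun p : Nat.Primes =>
      (Real.log (p : ℕ) : ℂ) ^ m / (m.factorial : ℂ) * ((p : ℕ) : ℂ) ^ (-s)) := by
  refine Summable.of_norm_bounded JB_prime_summable ?_
  intro p
  have hL := JB_log_pos p
  have hp0 : (0 : ℝ) < (p : ℕ) := by exact_mod_cast p.2.pos
  have hp1 : (1 : ℝ) ≤ (p : ℕ) := by exact_mod_cast p.2.one_lt.le
  rw [norm_mul, norm_div, norm_pow, Complex.norm_real, Real.norm_of_nonneg hL.le,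
    Complex.norm_natCast, Complex.norm_natCast_cpow_of_pos p.2.pos, Complex.neg_re, hs]
  have h1 : Real.log (p : ℕ) ^ m / (m.factorial : ℝ) ≤ (p : ℕ) := by
    have := Real.pow_div_factorial_le_exp (Real.log (p : ℕ)) hL.le m
    rwa [Real.exp_log hp0] at this
  have h2 : ((p : ℕ) : ℝ) ^ (-4 : ℝ) = (((p : ℕ) : ℝ) ^ 4)⁻¹ := by
    rw [Real.rpow_neg hp0.le]
    congr 1
    exact_mod_cast Real.rpow_natCast ((p : ℕ) : ℝ) 4
  rw [h2]
  calc Real.log (p : ℕ) ^ m / (m.factorial : ℝ) * (((p : ℕ) : ℝ) ^ 4)⁻¹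
      ≤ (p : ℕ) * (((p : ℕ) : ℝ) ^ 4)⁻¹ :=
        mul_le_mul_of_nonneg_right h1 (by positivity)
    _ = (((p : ℕ) : ℝ) ^ 3)⁻¹ := by
        field_simp
    _ ≤ (((p : ℕ) : ℝ) ^ 2)⁻¹ := by
        apply inv_anti₀ (by positivity)
        exact pow_le_pow_right₀ hp1 (by norm_num)

theorem JB : JB_stmt := by
  intro s k hs
  have h1 := hasSum_integral_of_summable_integral_norm (JB_intF s hs k) (JB_normsum s hs k)
  have h2 : Jt s k 0 = ∫ u in Set.Ioi (0 : ℝ), ∑' p : Nat.Primes, JB_F s k p u := by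
    unfold Jt
    apply integral_congr_ae
    exact Eventually.of_forall fun u => (JB_sumF s k u).symm
  rw [h2, ← h1.tsum_eq]
  have h3 : ∀ p : Nat.Primes, ∫ u in Set.Ioi (0 : ℝ), JB_F s k p u =
      (k.factorial : ℂ) * ∑ i ∈ Finset.range (k + 1), (s ^ (i + 1))⁻¹ *
        ((Real.log (p : ℕ) : ℂ) ^ (k - i) / ((k - i).factorial : ℂ) * ((p : ℕ) : ℂ) ^ (-s)) :=
    JB_valF s hs k
  rw [tsum_congr h3, tsum_mul_left]
  congr 1
  rw [Summable.tsum_finsetSum]
  · apply Finset.sum_congr rfl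
    intro i _
    rw [tsum_mul_left]
    rfl
  · intro i _
    exact (JB_termsum s hs (k - i)).mul_left _

end Pool.Agent.EV
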